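import Mathlib
import Pool.Agent.H6.SQF

namespace Pool.Agent.Results.MP_3acc10_al.SevenVars

open Finset MvPolynomial

/-- Index set of the coefficients of `r` square-free forms of degrees `d 0, ..., d (r-1)` in
`n` variables: a form number `j` and a set of `d j` variables. -/
abbrev Idx (n r : ℕ) (d : Fin r → ℕ) : Type :=
  (j : Fin r) × {s : Finset (Fin n) // s.card = d j}

variable (K : Type*) [Field K]

/-- The `j`-th square-free form with coefficient vector `c`. -/
noncomputable def form (n r : ℕ) (d : Fin r → ℕ) (c : Idx n r d → K) (j : Fin r) :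
    MvPolynomial (Fin n) K :=
  ∑ s : {s : Finset (Fin n) // s.card = d j}, C (c ⟨j, s⟩) * ∏ i ∈ s.1, X i

/-- The ideal of `K[x_1,...,x_n]` generated by the squares of the variables and the forms, so
that the quotient by it is the square-free algebra modulo the ideal generated by the forms. -/
noncomputable def idl (n r : ℕ) (d : Fin r → ℕ) (c : Idx n r d → K) :
    Ideal (MvPolynomial (Fin n) K) :=
  Ideal.span (Set.range (fun i : Fin n => (X i : MvPolynomial (Fin n) K) ^ 2) ∪
    Set.range (form K n r d c))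

/-- The Hilbert function of `K[x_1,...,x_n]/I`: the dimension of the image of the forms of
degree `i`. -/
noncomputable def hilb (n : ℕ) (I : Ideal (MvPolynomial (Fin n) K)) (i : ℕ) : ℕ :=
  Module.finrank K (Submodule.map (Ideal.Quotient.mkₐ K I).toLinearMap
    (homogeneousSubmodule (Fin n) K i))

/-- The series `(1+t)^n ∏ (1 - t^(d_j))`. -/
noncomputable def ser (n r : ℕ) (d : Fin r → ℕ) : Polynomial ℤ :=
  (1 + Polynomial.X) ^ n * ∏ j, (1 - Polynomial.X ^ (d j))

/-- The coefficient of `t^i` in the truncation of the series before its first nonpositive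
coefficient. -/
noncomputable def trunc (n r : ℕ) (d : Fin r → ℕ) (i : ℕ) : ℤ := by
  classical
  exact if ∀ j ≤ i, 0 < (ser n r d).coeff j then (ser n r d).coeff i else 0

/-- The coefficient vectors in some nonempty Zariski-open set (defined by a nonzero polynomial
`P`) give quotients with the expected Hilbert series. -/
def Expected (n r : ℕ) (d : Fin r → ℕ) : Prop :=
  ∃ P : MvPolynomial (Idx n r d) K, P ≠ 0 ∧
    ∀ c : Idx n r d → K, eval c P ≠ 0 → ∀ i, (hilb K n (idl K n r d c) i : ℤ) = trunc n r d i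

/-- The degrees `(1,1)`. -/
abbrev dd : Fin 2 → ℕ := fun _ => 1

lemma trunc_three : trunc 7 2 dd 3 = 0 := by
  have : ser 7 2 dd = 1 + 5 * Polynomial.X + 8 * Polynomial.X ^ 2 - 14 * Polynomial.X ^ 4
      - 14 * Polynomial.X ^ 5 + 8 * Polynomial.X ^ 7 + 5 * Polynomial.X ^ 8
      + Polynomial.X ^ 9 := by
    simp only [ser, dd, Finset.prod_const, Finset.card_univ, Fintype.card_fin]
    ring
  have h3 : (ser 7 2 dd).coeff 3 = 0 := by
    rw [this]
    simp [Polynomial.coeff_X, Polynomial.coeff_X_pow, Polynomial.coeff_one]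
  unfold trunc
  simp only [h3, ite_self]

/-- The index of the coefficient of the `i`-th variable. -/
def ix (j : Fin 2) (i : Fin 7) : Idx 7 2 dd := ⟨j, {i}, by simp⟩

lemma form_eq (c : Idx 7 2 dd → K) (j : Fin 2) :
    form K 7 2 dd c j = ∑ i, C (c (ix j i)) * X i := by
  unfold form
  symm
  refine Finset.sum_bij (fun i _ => (⟨{i}, by simp⟩ : {s : Finset (Fin 7) // s.card = dd j}))
    ?_ ?_ ?_ ?_
  · simp
  · intro i _ k _ h
    simpa using h
  · rintro ⟨s, hs⟩ _
    obtain ⟨i, rfl⟩ := Finset.card_eq_one.mp hs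
    exact ⟨i, Finset.mem_univ _, rfl⟩
  · intro i _
    simp [ix]

lemma hilb_three (c : Idx 7 2 dd → K) (ha : ∀ i, c (ix 0 i) ≠ 0)
    (hab : ∀ i j, i ≠ j → c (ix 0 i) * c (ix 1 j) - c (ix 0 j) * c (ix 1 i) ≠ 0) :
    1 ≤ hilb K 7 (idl K 7 2 dd c) 3 := by
  classical
  set a : Fin 7 → K := fun i => c (ix 0 i) with ha'
  set t : Fin 7 → K := fun i => c (ix 1 i) / c (ix 0 i) with ht'
  have ht : Function.Injective t := by
    intro i j hij
    by_contra hne
    apply hab i j hne
    simp only [ht'] at hij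
    rw [div_eq_div_iff (ha i) (ha j)] at hij
    linear_combination -hij
  set ω : Fin 7 → K := fun i => (a i)⁻¹ * (∏ j ∈ univ.erase i, (t i - t j))⁻¹ with hω'
  have hω : ∀ i, a i * ω i = (∏ j ∈ univ.erase i, (t i - t j))⁻¹ := by
    intro i
    simp only [hω']
    rw [← mul_assoc, mul_inv_cancel₀ (ha i), one_mul]
  have hω0 : ∀ i, ω i ≠ 0 := by
    intro i
    simp only [hω']
    refine mul_ne_zero (inv_ne_zero (ha i)) (inv_ne_zero (Finset.prod_ne_zero_iff.mpr ?_))
    intro j hj
    exact sub_ne_zero.mpr (fun h => (Finset.ne_of_mem_erase hj) (ht h).symm)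
  have hL : ∀ p ∈ idl K 7 2 dd c, ∀ g, Pool.Agent.H6.SQF.L t ω (g * p) = 0 := by
    intro p hp
    refine Submodule.span_induction (p := fun p _ => ∀ g, Pool.Agent.H6.SQF.L t ω (g * p) = 0)
      ?_ ?_ ?_ ?_ hp
    · rintro x (⟨i, rfl⟩ | ⟨j, rfl⟩) g
      · exact Pool.Agent.H6.SQF.L_sq t ω g i
      · rw [form_eq]
        have hj : j = 0 ∨ j = 1 := by
          revert j; decide
        rcases hj with rfl | rfl
        · have h2 : ∀ i, c (ix 0 i) = a i * t i ^ 0 := by
            intro i
            rw [pow_zero, mul_one]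
          rw [Finset.sum_congr rfl (fun i _ => by rw [h2 i])]
          exact Pool.Agent.H6.SQF.L_lin t a ω ht hω 0 (by norm_num) g
        · have h2 : ∀ i, c (ix 1 i) = a i * t i ^ 1 := by
            intro i
            rw [pow_one]
            exact (mul_div_cancel₀ _ (ha i)).symm
          rw [Finset.sum_congr rfl (fun i _ => by rw [h2 i])]
          exact Pool.Agent.H6.SQF.L_lin t a ω ht hω 1 (by norm_num) g
    · intro g; simp
    · intro x y _ _ hx hy g
      rw [mul_add, map_add, hx, hy, add_zero]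
    · intro r x _ hx g
      rw [smul_eq_mul, ← mul_assoc]
      exact hx _
  have hX : (X 0 * X 1 * X 2 : MvPolynomial (Fin 7) K) ∉ idl K 7 2 dd c := by
    intro h
    have h1 := hL _ h 1
    rw [one_mul] at h1
    exact Pool.Agent.H6.SQF.L_X t ω ht hω0 h1
  unfold hilb
  have hfin : Module.Finite K (Submodule.map
      (Ideal.Quotient.mkₐ K (idl K 7 2 dd c)).toLinearMap
      (homogeneousSubmodule (Fin 7) K 3)) := by
    rw [Module.Finite.iff_fg]
    exact (homogeneousSubmodule_fg (Fin 7) K 3).map _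
  rw [Nat.one_le_iff_ne_zero]
  intro h0
  rw [Submodule.finrank_eq_zero] at h0
  have hmem : (Ideal.Quotient.mkₐ K (idl K 7 2 dd c)).toLinearMap (X 0 * X 1 * X 2) ∈
      Submodule.map (Ideal.Quotient.mkₐ K (idl K 7 2 dd c)).toLinearMap
      (homogeneousSubmodule (Fin 7) K 3) := by
    refine Submodule.mem_map_of_mem ?_
    rw [mem_homogeneousSubmodule]
    exact ((isHomogeneous_X K 0).mul (isHomogeneous_X K 1)).mul (isHomogeneous_X K 2)
  rw [h0, Submodule.mem_bot] at hmem
  exact hX (Ideal.Quotient.eq_zero_iff_mem.mp hmem)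

/-- The statement of the question fails over every infinite field. -/
theorem result (K : Type*) [Field K] [Infinite K] :
    (¬ ∀ (n r : ℕ) (d : Fin r → ℕ), 1 ≤ n → 1 ≤ r → (∀ j, 1 ≤ d j) → Expected K n r d) ∧
    trunc 7 2 dd 3 = 0 ∧
    ∃ Q : MvPolynomial (Idx 7 2 dd) K, Q ≠ 0 ∧
      ∀ c, eval c Q ≠ 0 → 1 ≤ hilb K 7 (idl K 7 2 dd c) 3 := by
  have main : ∃ Q : MvPolynomial (Idx 7 2 dd) K, Q ≠ 0 ∧
      ∀ c, eval c Q ≠ 0 → 1 ≤ hilb K 7 (idl K 7 2 dd c) 3 := by
    refine ⟨(∏ i, X (ix 0 i)) * ∏ i, ∏ j ∈ univ.erase i,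
      (X (ix 0 i) * X (ix 1 j) - X (ix 0 j) * X (ix 1 i)), ?_, ?_⟩
    · intro h0
      have hev : ∀ c : Idx 7 2 dd → K, eval c ((∏ i, X (ix 0 i)) * ∏ i, ∏ j ∈ univ.erase i,
        (X (ix 0 i) * X (ix 1 j) - X (ix 0 j) * X (ix 1 i))) = 0 := by
        intro c; rw [h0]; simp
      obtain ⟨τ, hτ⟩ : ∃ τ : Fin 7 → K, Function.Injective τ :=
        ⟨fun i => Infinite.natEmbedding K i.1,
          fun i j h => Fin.ext ((Infinite.natEmbedding K).injective h)⟩
      have hc := hev (fun x => if x.1 = 0 then 1 else ∑ i ∈ x.2.1, τ i)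
      have e0 : ∀ i, (fun x : Idx 7 2 dd => if x.1 = 0 then (1 : K) else ∑ i ∈ x.2.1, τ i)
          (ix 0 i) = 1 := by intro i; simp [ix]
      have e1 : ∀ i, (fun x : Idx 7 2 dd => if x.1 = 0 then (1 : K) else ∑ i ∈ x.2.1, τ i)
          (ix 1 i) = τ i := by intro i; simp [ix]
      simp only [map_mul, map_prod, map_sub, eval_X] at hc
      rw [mul_eq_zero, Finset.prod_eq_zero_iff, Finset.prod_eq_zero_iff] at hc
      rcases hc with ⟨i, _, hi⟩ | ⟨i, _, hi⟩
      · have := e0 i
        simp only at this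
        rw [this] at hi
        exact one_ne_zero hi
      · rw [Finset.prod_eq_zero_iff] at hi
        obtain ⟨j, hj, hij⟩ := hi
        have h1 := e0 i
        have h2 := e0 j
        have h3 := e1 i
        have h4 := e1 j
        simp only at h1 h2 h3 h4
        rw [h1, h2, h3, h4] at hij
        exact (Finset.ne_of_mem_erase hj) (hτ (by linear_combination hij))
    · intro c hc
      rw [map_mul, map_prod, map_prod] at hc
      have h1 := left_ne_zero_of_mul hc
      have h2 := right_ne_zero_of_mul hc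
      rw [Finset.prod_ne_zero_iff] at h1 h2
      refine hilb_three K c (fun i => by simpa using h1 i (Finset.mem_univ _)) ?_
      intro i j hij
      have h3 := h2 i (Finset.mem_univ _)
      rw [map_prod, Finset.prod_ne_zero_iff] at h3
      have := h3 j (by simp [Ne.symm hij])
      simpa using this
  refine ⟨?_, trunc_three, main⟩
  intro hall
  obtain ⟨P, hP, hPc⟩ := hall 7 2 dd (by norm_num) (by norm_num) (fun _ => le_rfl)
  obtain ⟨Q, hQ, hQc⟩ := main
  obtain ⟨c, hc⟩ : ∃ c : Idx 7 2 dd → K, eval c (P * Q) ≠ 0 := by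
    by_contra hcon
    push Not at hcon
    exact mul_ne_zero hP hQ (MvPolynomial.funext (fun c => by rw [hcon c]; simp))
  rw [map_mul] at hc
  have h1 := hPc c (left_ne_zero_of_mul hc) 3
  have h2 := hQc c (right_ne_zero_of_mul hc)
  rw [trunc_three] at h1
  omega

end Pool.Agent.Results.MP_3acc10_al.SevenVars
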